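import Pool.Agent.Q281.PA.Defs

/-! Unsplittable permutation classes and separable permutations. -/

set_option autoImplicit false

namespace Pool.Agent.Q281.PB

open Pool.Agent.Q281.PA

/-- `C` is unsplittable: for all `σ`, `π` in `C` there is `τ` in `C` such that every colouring of the
entries of `τ` with two colours has a copy of `σ` in the first colour or of `π` in the second -/
def Unsplittable (C : Set FPerm) : Prop :=
  ∀ σ ∈ C, ∀ π ∈ C, ∃ τ ∈ C, ∀ c : Fin τ.1 → Bool,
    (∃ f : Fin σ.1 → Fin τ.1, IsEmb σ τ f ∧ ∀ i, c (f i) = true) ∨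
    (∃ f : Fin π.1 → Fin τ.1, IsEmb π τ f ∧ ∀ i, c (f i) = false)

/-- the permutation `2413` (values written from `0`) -/
def p2413 : FPerm := ⟨4, ⟨![1, 3, 0, 2], ![2, 0, 3, 1], by decide, by decide⟩⟩

/-- the permutation `3142` (values written from `0`) -/
def p3142 : FPerm := ⟨4, ⟨![2, 0, 3, 1], ![1, 3, 0, 2], by decide, by decide⟩⟩

/-- the class of separable permutations, `Av(2413, 3142)` -/
def Sep : Set FPerm := {π | (∀ f, ¬ IsEmb p2413 π f) ∧ ∀ f, ¬ IsEmb p3142 π f}

end Pool.Agent.Q281.PB
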