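import Pool.Agent.Q281.PA.Main
import Pool.Agent.Q281.PB.Defs

/-! An unsplittable permutation class incomparable with the separable class. -/

set_option autoImplicit false

namespace Pool.Agent.Q281.PB

open Pool.Agent.Q281.PA (FPerm IsEmb IsPermClass std)

/-- the type of points: finite sequences of blocks, ended by a final symbol -/
inductive M : Type
  | fin (s : ℕ) : M
  | blk (p : ℕ) (m : M) : M

namespace M

/-- the position of a point -/
def pos : M → List ℕ
  | fin s => [2 * s + 1]
  | blk p m => (2 * p) :: pos m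

/-- the value of a point: final symbols are above all blocks -/
def val : M → List (ℤ ×ₗ ℤ)
  | fin s => [toLex (1, -(s : ℤ))]
  | blk p m => toLex (0, -(p : ℤ)) :: val m

theorem pos_inj : Function.Injective pos := by
  intro x
  induction x with
  | fin s =>
    intro y h
    cases y with
    | fin t => simp only [pos, List.cons.injEq, and_true] at h; congr 1; omega
    | blk p m => simp only [pos, List.cons.injEq] at h; omega
  | blk p m ih =>
    intro y h
    cases y with
    | fin t => simp only [pos, List.cons.injEq] at h; omega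
    | blk p' m' =>
      simp only [pos, List.cons.injEq] at h
      obtain ⟨h1, h2⟩ := h
      have : p = p' := by omega
      subst this
      rw [ih h2]

theorem val_inj : Function.Injective val := by
  intro x
  induction x with
  | fin s =>
    intro y h
    cases y with
    | fin t =>
      simp only [val, List.cons.injEq, and_true, EmbeddingLike.apply_eq_iff_eq, Prod.mk.injEq,
        true_and] at h
      congr 1; omega
    | blk p m =>
      simp only [val, List.cons.injEq, EmbeddingLike.apply_eq_iff_eq, Prod.mk.injEq] at h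
      omega
  | blk p m ih =>
    intro y h
    cases y with
    | fin t =>
      simp only [val, List.cons.injEq, EmbeddingLike.apply_eq_iff_eq, Prod.mk.injEq] at h
      omega
    | blk p' m' =>
      simp only [val, List.cons.injEq, EmbeddingLike.apply_eq_iff_eq, Prod.mk.injEq,
        true_and] at h
      obtain ⟨h1, h2⟩ := h
      have : p = p' := by omega
      subst this
      rw [ih h2]

theorem pos_ff (s t : ℕ) : pos (fin s) < pos (fin t) ↔ s < t := by
  simp only [pos, List.cons_lt_cons_iff]
  constructor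
  · rintro (h | ⟨_, h⟩)
    · omega
    · exact absurd h (lt_irrefl _)
  · intro h; left; omega

theorem pos_fb (s p : ℕ) (m : M) : pos (fin s) < pos (blk p m) ↔ s < p := by
  simp only [pos, List.cons_lt_cons_iff]
  constructor
  · rintro (h | ⟨h, _⟩)
    · omega
    · omega
  · intro h; left; omega

theorem pos_bf (s p : ℕ) (m : M) : pos (blk p m) < pos (fin s) ↔ p ≤ s := by
  simp only [pos, List.cons_lt_cons_iff]
  constructor
  · rintro (h | ⟨h, _⟩)
    · omega
    · omega
  · intro h; left; omega

theorem pos_bb (p p' : ℕ) (m m' : M) :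
    pos (blk p m) < pos (blk p' m') ↔ p < p' ∨ (p = p' ∧ pos m < pos m') := by
  simp only [pos, List.cons_lt_cons_iff]
  constructor
  · rintro (h | ⟨h, h'⟩)
    · left; omega
    · right; exact ⟨by omega, h'⟩
  · rintro (h | ⟨h, h'⟩)
    · left; omega
    · right; exact ⟨by omega, h'⟩

theorem val_ff (s t : ℕ) : val (fin s) < val (fin t) ↔ t < s := by
  simp only [val, List.cons_lt_cons_iff, Prod.Lex.toLex_lt_toLex]
  constructor
  · rintro ((h | ⟨_, h⟩) | ⟨_, h⟩)
    · omega
    · omega
    · exact absurd h (lt_irrefl _)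
  · intro h; left; right; exact ⟨trivial, by omega⟩

theorem val_fb (s p : ℕ) (m : M) : ¬ val (fin s) < val (blk p m) := by
  simp only [val, List.cons_lt_cons_iff, Prod.Lex.toLex_lt_toLex]
  rintro ((h | ⟨h, _⟩) | ⟨h, _⟩)
  · omega
  · omega
  · simp at h

theorem val_bf (s p : ℕ) (m : M) : val (blk p m) < val (fin s) := by
  simp only [val, List.cons_lt_cons_iff, Prod.Lex.toLex_lt_toLex]
  left; left; omega

theorem val_bb (p p' : ℕ) (m m' : M) :
    val (blk p m) < val (blk p' m') ↔ p' < p ∨ (p = p' ∧ val m < val m') := by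
  simp only [val, List.cons_lt_cons_iff, Prod.Lex.toLex_lt_toLex]
  constructor
  · rintro ((h | ⟨_, h⟩) | ⟨h, h'⟩)
    · omega
    · left; omega
    · simp only [EmbeddingLike.apply_eq_iff_eq, Prod.mk.injEq, true_and] at h
      right; exact ⟨by omega, h'⟩
  · rintro (h | ⟨h, h'⟩)
    · left; right; exact ⟨trivial, by omega⟩
    · right; subst h; exact ⟨rfl, h'⟩

end M

open M

/-- `f` is an embedding of the permutation `π` into the point set -/
def Into (π : FPerm) (f : Fin π.1 → M) : Prop :=
  (∀ i j, i < j ↔ pos (f i) < pos (f j)) ∧ ∀ i j, π.2 i < π.2 j ↔ val (f i) < val (f j)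

/-- the finite patterns of the point set -/
def Age : Set FPerm := {π | ∃ f, Into π f}

theorem Into.comp {a b : FPerm} {f : Fin a.1 → Fin b.1} {g : Fin b.1 → M}
    (hf : IsEmb a b f) (hg : Into b g) : Into a (g ∘ f) :=
  ⟨fun i j => (hf.1 i j).trans (hg.1 _ _), fun i j => (hf.2 i j).trans (hg.2 _ _)⟩

theorem Into.blk {a : FPerm} {f : Fin a.1 → M} (hf : Into a f) (p : ℕ) :
    Into a (fun i => M.blk p (f i)) :=
  ⟨fun i j => by rw [hf.1 i j, pos_bb]; simp, fun i j => by rw [hf.2 i j, val_bb]; simp⟩

theorem age_class : IsPermClass Age := by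
  rintro a b f hf ⟨g, hg⟩
  exact ⟨g ∘ f, Into.comp hf hg⟩

/-- an embedding which is not contained in one block -/
theorem reduced (π : FPerm) (h0 : 0 < π.1) : ∀ (x : M) (f : Fin π.1 → M), f ⟨0, h0⟩ = x →
    Into π f → ∃ f, Into π f ∧ ∀ p, ∃ i, ∀ m, f i ≠ M.blk p m := by
  intro x
  induction x with
  | fin s =>
    intro f hx hf
    exact ⟨f, hf, fun p => ⟨⟨0, h0⟩, fun m hm => by rw [hx] at hm; cases hm⟩⟩
  | blk p m ih =>
    intro f hx hf
    by_cases hall : ∀ i, ∃ m', f i = M.blk p m'
    · choose g hg using hall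
      have hg' : Into π g := by
        constructor
        · intro i j
          rw [hf.1, hg i, hg j, pos_bb]
          simp
        · intro i j
          rw [hf.2, hg i, hg j, val_bb]
          simp
      refine ih g ?_ hg'
      have h1 := hg ⟨0, h0⟩
      rw [hx] at h1
      injection h1 with _ h2
      exact h2.symm
    · push Not at hall
      obtain ⟨i, hi⟩ := hall
      refine ⟨f, hf, fun p' => ?_⟩
      by_cases hp : p' = p
      · subst hp; exact ⟨i, hi⟩
      · refine ⟨⟨0, h0⟩, fun m' hm' => ?_⟩
        rw [hx] at hm'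
        injection hm' with h1 _
        exact hp h1.symm

/-- the main step -/
theorem step (c : M → Bool) (b : Bool) (π : FPerm) (hπ : π ∈ Age)
    (hR : {s : ℕ | c (M.fin s) = b}.Infinite)
    (hsub : ∀ θ ∈ Age, θ.1 < π.1 → ∀ r : ℕ, ∃ g, Into θ g ∧ ∀ i, c (M.blk r (g i)) = b) :
    ∃ f, Into π f ∧ ∀ i, c (f i) = b := by
  classical
  rcases Nat.eq_zero_or_pos π.1 with h0 | h0
  · obtain ⟨f, hf⟩ := hπ
    exact ⟨f, hf, fun i => absurd i.2 (by omega)⟩
  obtain ⟨f0, hf0⟩ := hπ
  obtain ⟨f, hf, hred⟩ := reduced π h0 _ f0 rfl hf0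
  let e : ℕ → ℕ := Nat.nth (fun s => c (M.fin s) = b)
  have he : StrictMono e := Nat.nth_strictMono hR
  have hec : ∀ k, c (M.fin (e k)) = b := fun k => Nat.nth_mem_of_infinite hR k
  have hG : ∀ p : ℕ, ∃ G : Fin π.1 → M,
      (∀ i j, (∃ m, f i = M.blk p m) → (∃ m, f j = M.blk p m) →
        ((i < j ↔ pos (G i) < pos (G j)) ∧ (π.2 i < π.2 j ↔ val (G i) < val (G j)))) ∧
      ∀ i, (∃ m, f i = M.blk p m) → c (M.blk (e (2 * p)) (G i)) = b := by
    intro p
    obtain ⟨θ, h, h1, h2, h3⟩ := std (fun i : Fin π.1 => i) π.2 (fun _ _ h => h) π.2.injective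
      {i | ∃ m, f i = M.blk p m} (Set.toFinite _)
    have hemb : IsEmb θ π h := ⟨h1, h2⟩
    have hinj : Function.Injective h := by
      intro i j hij
      rcases lt_trichotomy i j with hlt | heq | hlt
      · have := (h1 i j).1 hlt
        rw [hij] at this
        exact absurd this (lt_irrefl _)
      · exact heq
      · have := (h1 j i).1 hlt
        rw [hij] at this
        exact absurd this (lt_irrefl _)
    have hlt : θ.1 < π.1 := by
      have hle : θ.1 ≤ π.1 := by
        have := Fintype.card_le_of_injective h hinj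
        simpa using this
      refine lt_of_le_of_ne hle fun heq => ?_
      have hbij : Function.Bijective h :=
        (Fintype.bijective_iff_injective_and_card h).2 ⟨hinj, by simp [heq]⟩
      obtain ⟨i, hi⟩ := hred p
      obtain ⟨j, hj⟩ := hbij.2 i
      have : i ∈ {i | ∃ m, f i = M.blk p m} := by rw [← h3]; exact ⟨j, hj⟩
      obtain ⟨m, hm⟩ := this
      exact hi m hm
    obtain ⟨g, hg, hgc⟩ := hsub θ ⟨f ∘ h, Into.comp hemb hf⟩ hlt (e (2 * p))
    have hinv : ∀ i, ∃ x : M, (∃ m, f i = M.blk p m) → ∃ j, h j = i ∧ x = g j := by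
      intro i
      by_cases hi : ∃ m, f i = M.blk p m
      · have : i ∈ Set.range h := by rw [h3]; exact hi
        obtain ⟨j, hj⟩ := this
        exact ⟨g j, fun _ => ⟨j, hj, rfl⟩⟩
      · exact ⟨M.fin 0, fun hh => absurd hh hi⟩
    choose G hG using hinv
    refine ⟨G, fun i j hi hj => ?_, fun i hi => ?_⟩
    · obtain ⟨a, ha, ha'⟩ := hG i hi
      obtain ⟨b, hb, hb'⟩ := hG j hj
      rw [ha', hb', ← ha, ← hb]
      exact ⟨(h1 a b).symm.trans (hg.1 a b), (h2 a b).symm.trans (hg.2 a b)⟩
    · obtain ⟨a, ha, ha'⟩ := hG i hi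
      rw [ha']
      exact hgc a
  choose G hG1 hG2 using hG
  -- the new embedding
  let T : M → Fin π.1 → M := fun x i =>
    match x with
    | M.fin s => M.fin (e (2 * s + 1))
    | M.blk p _ => M.blk (e (2 * p)) (G p i)
  have hTf : ∀ s i, T (M.fin s) i = M.fin (e (2 * s + 1)) := fun _ _ => rfl
  have hTb : ∀ p m i, T (M.blk p m) i = M.blk (e (2 * p)) (G p i) := fun _ _ _ => rfl
  clear_value T
  refine ⟨fun i => T (f i) i, ⟨fun i j => ?_, fun i j => ?_⟩, fun i => ?_⟩
  · rw [hf.1 i j]
    show pos (f i) < pos (f j) ↔ pos (T (f i) i) < pos (T (f j) j)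
    rcases hi : f i with s | ⟨p, m⟩ <;> rcases hj : f j with t | ⟨q, m'⟩
    · rw [hTf, hTf, pos_ff, pos_ff, he.lt_iff_lt]; omega
    · rw [hTf, hTb, pos_fb, pos_fb, he.lt_iff_lt]; omega
    · rw [hTf, hTb, pos_bf, pos_bf]
      constructor
      · intro h
        exact (he (by omega : 2 * p < 2 * t + 1)).le
      · intro h
        by_contra hn
        have := he (by omega : 2 * t + 1 < 2 * p)
        omega
    · rw [hTb, hTb, pos_bb, pos_bb, he.lt_iff_lt]
      constructor
      · rintro (h | ⟨h, h'⟩)
        · left; omega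
        · subst h
          right
          refine ⟨rfl, ((hG1 p i j ⟨m, hi⟩ ⟨m', hj⟩).1).1 ?_⟩
          rw [hf.1, hi, hj, pos_bb]
          exact Or.inr ⟨rfl, h'⟩
      · rintro (h | ⟨h, h'⟩)
        · left; omega
        · have hpq : p = q := by have := he.injective h; omega
          subst hpq
          have h1 := ((hG1 p i j ⟨m, hi⟩ ⟨m', hj⟩).1).2 h'
          rw [hf.1, hi, hj, pos_bb] at h1
          exact h1
  · rw [hf.2 i j]
    show val (f i) < val (f j) ↔ val (T (f i) i) < val (T (f j) j)
    rcases hi : f i with s | ⟨p, m⟩ <;> rcases hj : f j with t | ⟨q, m'⟩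
    · rw [hTf, hTf, val_ff, val_ff, he.lt_iff_lt]; omega
    · rw [hTf, hTb]
      exact ⟨fun h => absurd h (val_fb _ _ _), fun h => absurd h (val_fb _ _ _)⟩
    · rw [hTf, hTb]
      exact ⟨fun _ => val_bf _ _ _, fun _ => val_bf _ _ _⟩
    · rw [hTb, hTb, val_bb, val_bb, he.lt_iff_lt]
      constructor
      · rintro (h | ⟨h, h'⟩)
        · left; omega
        · subst h
          right
          refine ⟨rfl, ((hG1 p i j ⟨m, hi⟩ ⟨m', hj⟩).2).1 ?_⟩
          rw [hf.2, hi, hj, val_bb]
          exact Or.inr ⟨rfl, h'⟩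
      · rintro (h | ⟨h, h'⟩)
        · left; omega
        · have hpq : p = q := by have := he.injective h; omega
          subst hpq
          have h1 := ((hG1 p i j ⟨m, hi⟩ ⟨m', hj⟩).2).2 h'
          rw [hf.2, hi, hj, val_bb] at h1
          exact h1
  · show c (T (f i) i) = b
    rcases hi : f i with s | ⟨p, m⟩
    · rw [hTf]; exact hec _
    · rw [hTb]; exact hG2 p i ⟨m, hi⟩

/-- the Ramsey property of the infinite point set -/
theorem ramsey : ∀ (n : ℕ) (π ρ : FPerm), π.1 + ρ.1 ≤ n → π ∈ Age → ρ ∈ Age → ∀ c : M → Bool,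
    (∃ f, Into π f ∧ ∀ i, c (f i) = true) ∨ ∃ f, Into ρ f ∧ ∀ i, c (f i) = false := by
  intro n
  induction n with
  | zero =>
    rintro π ρ h ⟨f, hf⟩ _ c
    exact Or.inl ⟨f, hf, fun i => absurd i.2 (by omega)⟩
  | succ n ih =>
    intro π ρ h hπ hρ c
    by_cases hr : ∃ f, Into π f ∧ ∀ i, c (f i) = true
    · exact Or.inl hr
    by_cases hb : ∃ f, Into ρ f ∧ ∀ i, c (f i) = false
    · exact Or.inr hb
    exfalso
    have hinf : {s : ℕ | c (M.fin s) = true}.Infinite ∨ {s : ℕ | c (M.fin s) = false}.Infinite := by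
      by_contra hcon
      push Not at hcon
      obtain ⟨h1, h2⟩ := hcon
      have h3 : (Set.univ : Set ℕ).Finite := by
        refine (h1.union h2).subset fun s _ => ?_
        cases hc : c (M.fin s)
        · right; exact hc
        · left; exact hc
      exact Set.infinite_univ h3
    rcases hinf with hinf | hinf
    · refine hr (step c true π hπ hinf fun θ hθ hlt r => ?_)
      rcases ih θ ρ (by omega) hθ hρ (fun x => c (M.blk r x)) with ⟨g, hg, hgc⟩ | ⟨g, hg, hgc⟩
      · exact ⟨g, hg, hgc⟩
      · exact absurd ⟨_, hg.blk r, hgc⟩ hb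
    · refine hb (step c false ρ hρ hinf fun θ hθ hlt r => ?_)
      rcases ih π θ (by omega) hπ hθ (fun x => c (M.blk r x)) with ⟨g, hg, hgc⟩ | ⟨g, hg, hgc⟩
      · exact absurd ⟨_, hg.blk r, hgc⟩ hr
      · exact ⟨g, hg, hgc⟩

theorem open_col {n : ℕ} (f : Fin n → M) (b : Bool) :
    IsOpen {c : M → Bool | ∀ i, c (f i) = b} := by
  have : {c : M → Bool | ∀ i, c (f i) = b} = ⋂ i, {c : M → Bool | c (f i) = b} := by
    ext c; simp
  rw [this]
  refine isOpen_iInter_of_finite fun i => ?_
  have hcont : Continuous (fun c : M → Bool => c (f i)) := continuous_apply (f i)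
  exact hcont.isOpen_preimage {b} (isOpen_discrete _)

/-- the Ramsey property of a finite part -/
theorem compact (π ρ : FPerm) (hπ : π ∈ Age) (hρ : ρ ∈ Age) : ∃ T : Set M, T.Finite ∧
    ∀ c : M → Bool, (∃ f, Into π f ∧ (∀ i, f i ∈ T) ∧ ∀ i, c (f i) = true) ∨
      ∃ f, Into ρ f ∧ (∀ i, f i ∈ T) ∧ ∀ i, c (f i) = false := by
  classical
  let ι := {f : Fin π.1 → M // Into π f} ⊕ {f : Fin ρ.1 → M // Into ρ f}
  let O : ι → Set (M → Bool) := fun x =>
    match x with
    | Sum.inl f => {c | ∀ i, c (f.1 i) = true}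
    | Sum.inr f => {c | ∀ i, c (f.1 i) = false}
  have hO : ∀ x, IsOpen (O x) := by
    rintro (f | f)
    · exact open_col f.1 true
    · exact open_col f.1 false
  have hcov : (Set.univ : Set (M → Bool)) ⊆ ⋃ x, O x := by
    intro c _
    rcases ramsey _ π ρ le_rfl hπ hρ c with ⟨f, hf, hc⟩ | ⟨f, hf, hc⟩
    · exact Set.mem_iUnion.2 ⟨Sum.inl ⟨f, hf⟩, hc⟩
    · exact Set.mem_iUnion.2 ⟨Sum.inr ⟨f, hf⟩, hc⟩
  obtain ⟨t, ht⟩ := isCompact_univ.elim_finite_subcover O hO hcov
  let R : ι → Set M := fun x =>
    match x with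
    | Sum.inl f => Set.range f.1
    | Sum.inr f => Set.range f.1
  have hR : ∀ x, (R x).Finite := by
    rintro (f | f)
    · exact Set.finite_range f.1
    · exact Set.finite_range f.1
  refine ⟨⋃ x ∈ t, R x, t.finite_toSet.biUnion fun x _ => hR x, fun c => ?_⟩
  have hc := ht (Set.mem_univ c)
  simp only [Set.mem_iUnion] at hc
  obtain ⟨x, hx, hcx⟩ := hc
  rcases x with f | f
  · left
    refine ⟨f.1, f.2, fun i => ?_, hcx⟩
    simp only [Set.mem_iUnion]
    exact ⟨Sum.inl f, hx, i, rfl⟩
  · right
    refine ⟨f.1, f.2, fun i => ?_, hcx⟩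
    simp only [Set.mem_iUnion]
    exact ⟨Sum.inr f, hx, i, rfl⟩

theorem age_unsplittable : Unsplittable Age := by
  intro π hπ ρ hρ
  obtain ⟨T, hT, hcol⟩ := compact π ρ hπ hρ
  obtain ⟨τ, h, h1, h2, h3⟩ := std pos val pos_inj val_inj T hT
  have hinj : Function.Injective h := by
    intro i j hij
    rcases lt_trichotomy i j with hlt | heq | hlt
    · have := (h1 i j).1 hlt
      rw [hij] at this
      exact absurd this (lt_irrefl _)
    · exact heq
    · have := (h1 j i).1 hlt
      rw [hij] at this
      exact absurd this (lt_irrefl _)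
  have key : ∀ (a : FPerm) (f : Fin a.1 → M), Into a f → (∀ i, f i ∈ T) →
      ∃ f' : Fin a.1 → Fin τ.1, IsEmb a τ f' ∧ ∀ i, h (f' i) = f i := by
    intro a f hf hfT
    have : ∀ i, ∃ j, h j = f i := by
      intro i
      have : f i ∈ Set.range h := by rw [h3]; exact hfT i
      exact this
    choose f' hf' using this
    refine ⟨f', ⟨fun i j => ?_, fun i j => ?_⟩, hf'⟩
    · rw [hf.1, h1, hf', hf']
    · rw [hf.2, h2, hf', hf']
  refine ⟨τ, ⟨h, h1, h2⟩, fun c => ?_⟩
  let c' : M → Bool := Function.extend h c (fun _ => true)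
  have hc' : ∀ j, c' (h j) = c j := fun j => hinj.extend_apply c _ j
  rcases hcol c' with ⟨f, hf, hfT, hfc⟩ | ⟨f, hf, hfT, hfc⟩
  · obtain ⟨f', hf', hff⟩ := key π f hf hfT
    exact Or.inl ⟨f', hf', fun i => by rw [← hc', hff]; exact hfc i⟩
  · obtain ⟨f', hf', hff⟩ := key ρ f hf hfT
    exact Or.inr ⟨f', hf', fun i => by rw [← hc', hff]; exact hfc i⟩

/-! ### comparison with the separable class -/

theorem mem2413 : p2413 ∈ Age := by
  let F : Fin 4 → M := ![M.blk 0 (M.fin 0), M.fin 0, M.blk 1 (M.fin 0), M.fin 1]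
  have h1 : ∀ i j : Fin 4, i < j ↔ pos (F i) < pos (F j) := by
    intro i j
    fin_cases i <;> fin_cases j <;>
      simp [F, pos_ff, pos_fb, pos_bf, pos_bb]
  have h2 : ∀ i j : Fin 4, (![1, 3, 0, 2] : Fin 4 → Fin 4) i < (![1, 3, 0, 2] : Fin 4 → Fin 4) j ↔
      val (F i) < val (F j) := by
    intro i j
    fin_cases i <;> fin_cases j <;>
      simp [F, val_ff, val_fb, val_bf, val_bb]
  exact ⟨F, h1, h2⟩

/-- the permutation `1342` -/
def p1342 : FPerm := ⟨4, ⟨![0, 2, 3, 1], ![0, 3, 1, 2], by decide, by decide⟩⟩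

/-- no point has a pattern `231` above it -/
theorem no1342 : ∀ a b c d : M, pos a < pos b → pos b < pos c → pos c < pos d →
    val a < val d → val d < val b → val b < val c → False := by
  intro a
  induction a with
  | fin s =>
    intro b c d h1 h2 h3 h4 h5 h6
    cases b with
    | fin t =>
      rw [pos_ff] at h1
      have := h4.trans h5
      rw [val_ff] at this
      omega
    | blk p m => exact val_fb _ _ _ (h4.trans h5)
  | blk p a ih =>
    intro b c d h1 h2 h3 h4 h5 h6
    have hb := h4.trans h5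
    have hc := hb.trans h6
    -- b in the same block or final
    cases b with
    | fin t =>
      cases c with
      | fin u =>
        rw [pos_ff] at h2
        rw [val_ff] at h6
        omega
      | blk q m => exact val_fb _ _ _ h6
    | blk q b =>
      rw [pos_bb] at h1
      rw [val_bb] at hb
      have hq : p = q := by
        rcases h1 with h1 | h1
        · rcases hb with hb | hb
          · omega
          · exact hb.1
        · exact h1.1
      subst hq
      have h1' : pos a < pos b := by
        rcases h1 with h1 | h1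
        · exact absurd h1 (lt_irrefl _)
        · exact h1.2
      cases d with
      | fin u => exact val_fb _ _ _ h5
      | blk r d =>
        have had := (h1' : pos a < pos b)
        have hpd : pos (M.blk p a) < pos (M.blk r d) :=
          ((pos_bb _ _ _ _).2 (Or.inr ⟨rfl, h1'⟩)).trans (h2.trans h3)
        rw [pos_bb] at hpd
        rw [val_bb] at h4
        have hr : p = r := by
          rcases hpd with h | h
          · rcases h4 with h' | h'
            · omega
            · exact h'.1
          · exact h.1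
        subst hr
        cases c with
        | fin u =>
          -- c is right of b and left of d
          rw [pos_bf] at h2
          rw [pos_fb] at h3
          omega
        | blk r c =>
          rw [pos_bb] at h2 h3
          have hr : p = r := by
            rcases h2 with h | h
            · rcases h3 with h' | h'
              · omega
              · omega
            · exact h.1
          subst hr
          rw [val_bb] at h5 h6
          refine ih b c d h1' ?_ ?_ ?_ ?_ ?_
          · rcases h2 with h | h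
            · exact absurd h (lt_irrefl _)
            · exact h.2
          · rcases h3 with h | h
            · exact absurd h (lt_irrefl _)
            · exact h.2
          · rcases h4 with h | h
            · exact absurd h (lt_irrefl _)
            · exact h.2
          · rcases h5 with h | h
            · exact absurd h (lt_irrefl _)
            · exact h.2
          · rcases h6 with h | h
            · exact absurd h (lt_irrefl _)
            · exact h.2

theorem not1342 : p1342 ∉ Age := by
  rintro ⟨f, hf⟩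
  refine no1342 (f (0 : Fin 4)) (f (1 : Fin 4)) (f (2 : Fin 4)) (f (3 : Fin 4)) ?_ ?_ ?_ ?_ ?_ ?_
  · exact (hf.1 _ _).1 (by decide)
  · exact (hf.1 _ _).1 (by decide)
  · exact (hf.1 _ _).1 (by decide)
  · exact (hf.2 _ _).1 (by decide)
  · exact (hf.2 _ _).1 (by decide)
  · exact (hf.2 _ _).1 (by decide)

theorem sep1342 : p1342 ∈ Sep := by
  constructor
  · show ∀ f : Fin 4 → Fin 4, ¬ IsEmb p2413 p1342 f
    unfold IsEmb
    decide +kernel
  · show ∀ f : Fin 4 → Fin 4, ¬ IsEmb p3142 p1342 f
    unfold IsEmb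
    decide +kernel

theorem main : ∃ C : Set FPerm, IsPermClass C ∧ Unsplittable C ∧ ¬ Sep ⊆ C ∧ ¬ C ⊆ Sep := by
  refine ⟨Age, age_class, age_unsplittable, fun h => not1342 (h sep1342), fun h => ?_⟩
  exact (h mem2413).1 id ⟨fun _ _ => Iff.rfl, fun _ _ => Iff.rfl⟩

end Pool.Agent.Q281.PB
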